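import Mathlib

set_option autoImplicit false

namespace Pool.Agent.Results.MP_a3a891_gt.Counter

/-- `L(M)`: the local separating points of the space `M`: `p` separates the component,
containing `p`, of some open neighbourhood `V` of `p`. -/
def locSep (M : Type) [TopologicalSpace M] : Set M :=
  {p | ∃ V : Set M, IsOpen V ∧ p ∈ V ∧ ¬ IsPreconnected (connectedComponentIn V p \ {p})}

/-- Condition (S): `L(M)` is not a countable union of pairwise disjoint closed proper subsets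
of `M`. -/
def CondS (M : Type) [TopologicalSpace M] : Prop :=
  ¬ ∃ (I : Type) (_ : Countable I) (F : I → Set M),
    (∀ i, IsClosed (F i) ∧ F i ≠ Set.univ) ∧ (∀ i j, i ≠ j → Disjoint (F i) (F j)) ∧
    locSep M = ⋃ i, F i

section
open Set Filter Topology Real

/-- the sin(1/x) continuum -/
def T : Set (ℝ × ℝ) :=
  {p | (p.1 = 0 ∧ p.2 ∈ Icc (-1 : ℝ) 1) ∨ (0 < p.1 ∧ p.1 ≤ 1 ∧ p.2 = Real.sin p.1⁻¹)}

noncomputable def xSeq (y : ℝ) (k : ℕ) := 1 / (arcsin y + (k + 1) * (2 * π))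

lemma xSeq_pos (y : ℝ) (k : ℕ) : 0 < xSeq y k := by
  rw [xSeq, one_div_pos]
  nlinarith [pi_pos, neg_pi_div_two_le_arcsin y]

lemma sin_inv_xSeq {y : ℝ} (hy : y ∈ Icc (-1) 1) (k : ℕ) : Real.sin (xSeq y k)⁻¹ = y := by
  simpa [xSeq, -Nat.cast_add, ← Nat.cast_succ] using sin_arcsin' hy

lemma xSeq_tendsto (y : ℝ) : Tendsto (xSeq y) atTop (𝓝 0) := by
  refine .comp (g := fun k : ℝ ↦ 1 / (arcsin y + (k + 1) * (2 * π))) ?_ tendsto_natCast_atTop_atTop
  simp only [div_eq_mul_inv, show 𝓝 0 = 𝓝 (1 * (0 : ℝ)) by simp]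
  refine (tendsto_inv_atTop_zero.comp <| tendsto_atTop_add_const_left _ _ ?_).const_mul _
  exact (tendsto_atTop_add_const_right _ _ tendsto_id).atTop_mul_const (by positivity)

lemma exists_mem_Ioo_of_y {y : ℝ} (hy : y ∈ Icc (-1) 1) {a : ℝ} (ha : 0 < a) :
    ∃ x ∈ Ioo 0 a, Real.sin x⁻¹ = y := by
  obtain ⟨N, h_dist⟩ := (Metric.tendsto_nhds.mp (xSeq_tendsto y) (a / 2) (by positivity)).exists
  refine ⟨xSeq y N, ⟨xSeq_pos y N, ?_⟩, sin_inv_xSeq hy _⟩
  rw [Real.dist_eq, sub_zero, abs_of_pos (xSeq_pos _ N)] at h_dist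
  linarith

lemma isClosed_T : IsClosed T := by
  rw [← isSeqClosed_iff_isClosed]
  intro f ⟨x, y⟩ hf hlim
  rw [Prod.tendsto_iff] at hlim
  have h0 : 0 ≤ x := by
    refine isClosed_Ici.mem_of_tendsto hlim.1 (.of_forall fun n ↦ ?_)
    rcases hf n with h | h
    · exact le_of_eq h.1.symm
    · exact h.1.le
  have h1 : x ≤ 1 := by
    refine isClosed_Iic.mem_of_tendsto hlim.1 (.of_forall fun n ↦ ?_)
    rcases hf n with h | h
    · show (f n).1 ≤ 1
      rw [h.1]; exact zero_le_one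
    · exact h.2.1
  rcases h0.eq_or_lt with rfl | h
  · left
    refine ⟨rfl, isClosed_Icc.mem_of_tendsto hlim.2 (.of_forall fun n ↦ ?_)⟩
    rcases hf n with h | h
    · exact h.2
    · show (f n).2 ∈ _
      rw [h.2.2]; exact sin_mem_Icc _
  · right
    refine ⟨h, h1, ?_⟩
    have hc : ContinuousAt (fun x : ℝ ↦ Real.sin x⁻¹) x :=
      continuous_sin.continuousAt.comp <| continuousAt_inv₀ h.ne'
    refine tendsto_nhds_unique hlim.2 ?_
    refine (hc.tendsto.comp hlim.1).congr' ?_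
    filter_upwards [hlim.1.eventually (lt_mem_nhds h)] with n hn
    rcases hf n with h' | h'
    · exact absurd h'.1 (ne_of_gt hn)
    · exact h'.2.2.symm

lemma isCompact_T : IsCompact T := by
  refine (isCompact_Icc (a := ((0:ℝ), (-1:ℝ))) (b := ((1:ℝ), (1:ℝ)))).of_isClosed_subset isClosed_T ?_
  rintro ⟨x, y⟩ (h | h)
  · simp only at h
    exact ⟨⟨le_of_eq h.1.symm, h.2.1⟩, ⟨by rw [h.1]; exact zero_le_one, h.2.2⟩⟩
  · simp only at h
    have := sin_mem_Icc x⁻¹
    rw [← h.2.2] at this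
    exact ⟨⟨h.1.le, this.1⟩, ⟨h.2.1, this.2⟩⟩

abbrev X : Type := ↥T

instance : CompactSpace X := isCompact_iff_compactSpace.mp isCompact_T

lemma fst_nonneg (p : X) : 0 ≤ p.1.1 := by
  rcases p.2 with h | h
  · exact le_of_eq h.1.symm
  · exact h.1.le

lemma fst_le (p : X) : p.1.1 ≤ 1 := by
  rcases p.2 with h | h
  · rw [h.1]; exact zero_le_one
  · exact h.2.1

lemma snd_mem (p : X) : p.1.2 ∈ Icc (-1 : ℝ) 1 := by
  rcases p.2 with h | h
  · exact h.2
  · rw [h.2.2]; exact sin_mem_Icc _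

lemma snd_eq {p : X} (hp : 0 < p.1.1) : p.1.2 = Real.sin p.1.1⁻¹ := by
  rcases p.2 with h | h
  · exact absurd h.1 (ne_of_gt hp)
  · exact h.2.2

lemma eq_of_fst {p q : X} (hp : 0 < p.1.1) (h : q.1.1 = p.1.1) : q = p := by
  apply Subtype.ext
  refine Prod.ext h ?_
  rw [snd_eq hp, snd_eq (h ▸ hp), h]

/-- the point of the ray over `x` -/
noncomputable def ray (x : ℝ) : X :=
  if h : 0 < x ∧ x ≤ 1 then ⟨(x, Real.sin x⁻¹), Or.inr ⟨h.1, h.2, rfl⟩⟩
  else ⟨(0, 0), Or.inl ⟨rfl, by simp⟩⟩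

lemma ray_val {x : ℝ} (h0 : 0 < x) (h1 : x ≤ 1) : (ray x).1 = (x, Real.sin x⁻¹) := by
  simp [ray, h0, h1]

lemma ray_fst {p : X} (hp : 0 < p.1.1) : ray p.1.1 = p :=
  eq_of_fst hp (by rw [ray_val hp (fst_le p)])

lemma ray_cont : ContinuousOn ray (Ioc 0 1) := by
  rw [Topology.IsInducing.subtypeVal.continuousOn_iff]
  have : ContinuousOn (fun x : ℝ => (x, Real.sin x⁻¹)) (Ioc 0 1) := by
    refine continuousOn_id.prodMk ?_
    exact continuous_sin.comp_continuousOn (continuousOn_inv₀.mono fun x hx => ne_of_gt hx.1)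
  exact this.congr fun x hx => ray_val hx.1 hx.2

/-- the point of the limit bar at height `y` -/
noncomputable def bar (y : ℝ) : X :=
  ⟨(0, (projIcc (-1 : ℝ) 1 (by norm_num) y : ℝ)), Or.inl ⟨rfl, (projIcc (-1 : ℝ) 1 (by norm_num) y).2⟩⟩

lemma bar_cont : Continuous bar := by
  refine Continuous.subtype_mk ?_ _
  exact continuous_const.prodMk (continuous_subtype_val.comp continuous_projIcc)

lemma bar_val {y : ℝ} (hy : y ∈ Icc (-1 : ℝ) 1) : (bar y).1 = (0, y) := by
  simp [bar, projIcc_of_mem _ hy]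

lemma bar_snd {p : X} (hp : p.1.1 = 0) : bar p.1.2 = p := by
  apply Subtype.ext
  rw [bar_val (snd_mem p)]
  exact Prod.ext hp.symm rfl

lemma sep_lemma {Y : Type} [TopologicalSpace Y] {C : Set Y} (φ : Y → ℝ) (hφ : Continuous φ)
    {p u v : Y} (hu : u ∈ C) (hv : v ∈ C) (h1 : φ u < φ p) (h2 : φ p < φ v)
    (hinj : ∀ q ∈ C, φ q = φ p → q = p) : ¬ IsPreconnected (C \ {p}) := by
  intro h
  have h' := h.image φ hφ.continuousOn
  have hu' : u ∈ C \ {p} := ⟨hu, fun e => by rw [e] at h1; exact lt_irrefl _ h1⟩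
  have hv' : v ∈ C \ {p} := ⟨hv, fun e => by rw [e] at h2; exact lt_irrefl _ h2⟩
  obtain ⟨q, hq, hq'⟩ := h'.Icc_subset ⟨u, hu', rfl⟩ ⟨v, hv', rfl⟩ ⟨h1.le, h2.le⟩
  exact hq.2 (hinj q hq.1 hq')

/-- Structure of the subcontinua: a point, or the closure of an open arc of cut points. -/
lemma structure_sub (C : Set X) (hC : IsCompact C) (hc : IsConnected C) :
    C.Subsingleton ∨ ∃ (a b : ℝ) (γ : ℝ → X), a < b ∧ ContinuousOn γ (Ioo a b) ∧
      (∀ t ∈ Ioo a b, γ t ∈ C ∧ ¬ IsPreconnected (C \ {γ t})) ∧ C ⊆ closure (γ '' Ioo a b) := by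
  have c1 : Continuous fun p : X => p.1.1 := continuous_fst.comp continuous_subtype_val
  have c2 : Continuous fun p : X => p.1.2 := continuous_snd.comp continuous_subtype_val
  obtain ⟨u, hu, humin⟩ := hC.exists_isMinOn hc.nonempty c1.continuousOn
  obtain ⟨v, hv, hvmax⟩ := hC.exists_isMaxOn hc.nonempty c1.continuousOn
  have hI : Icc u.1.1 v.1.1 ⊆ (fun p : X => p.1.1) '' C :=
    (hc.isPreconnected.image _ c1.continuousOn).Icc_subset ⟨u, hu, rfl⟩ ⟨v, hv, rfl⟩
  rcases (show u.1.1 ≤ v.1.1 from humin hv).eq_or_lt with huv | huv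
  · rcases (fst_nonneg v).eq_or_lt with h0 | h0
    · have hz : ∀ p ∈ C, p.1.1 = 0 := fun p hp =>
        le_antisymm (h0 ▸ (show p.1.1 ≤ v.1.1 from hvmax hp)) (fst_nonneg p)
      obtain ⟨u', hu', humin'⟩ := hC.exists_isMinOn hc.nonempty c2.continuousOn
      obtain ⟨v', hv', hvmax'⟩ := hC.exists_isMaxOn hc.nonempty c2.continuousOn
      have hI' : Icc u'.1.2 v'.1.2 ⊆ (fun p : X => p.1.2) '' C :=
        (hc.isPreconnected.image _ c2.continuousOn).Icc_subset ⟨u', hu', rfl⟩ ⟨v', hv', rfl⟩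
      rcases (show u'.1.2 ≤ v'.1.2 from humin' hv').eq_or_lt with huv' | huv'
      · left
        intro p hp q hq
        have e1 : p.1.2 = q.1.2 := by
          have a1 : u'.1.2 ≤ p.1.2 := humin' hp
          have a2 : p.1.2 ≤ v'.1.2 := hvmax' hp
          have a3 : u'.1.2 ≤ q.1.2 := humin' hq
          have a4 : q.1.2 ≤ v'.1.2 := hvmax' hq
          linarith
        rw [← bar_snd (hz p hp), ← bar_snd (hz q hq), e1]
      · right
        refine ⟨u'.1.2, v'.1.2, bar, huv', bar_cont.continuousOn, ?_, ?_⟩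
        · intro t ht
          obtain ⟨p, hp, hpt⟩ := hI' ⟨ht.1.le, ht.2.le⟩
          simp only at hpt
          have e : bar t = p := by rw [← hpt]; exact bar_snd (hz p hp)
          rw [e]
          refine ⟨hp, sep_lemma (fun p : X => p.1.2) c2 hu' hv' ?_ ?_ ?_⟩
          · simp only [hpt]; exact ht.1
          · simp only [hpt]; exact ht.2
          · intro q hq hqp
            replace hqp : q.1.2 = p.1.2 := hqp
            rw [← bar_snd (hz p hp), ← bar_snd (hz q hq), hqp]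
        · intro p hp
          rw [← bar_snd (hz p hp)]
          refine image_closure_subset_closure_image bar_cont ⟨p.1.2, ?_, rfl⟩
          rw [closure_Ioo huv'.ne]
          exact ⟨humin' hp, hvmax' hp⟩
    · left
      intro p hp q hq
      have a1 : u.1.1 ≤ p.1.1 := humin hp
      have a2 : p.1.1 ≤ v.1.1 := hvmax hp
      have a3 : u.1.1 ≤ q.1.1 := humin hq
      have a4 : q.1.1 ≤ v.1.1 := hvmax hq
      exact eq_of_fst (by linarith) (by linarith)
  · right
    have hsub : Ioo u.1.1 v.1.1 ⊆ Ioc 0 1 := fun t ht =>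
      ⟨lt_of_le_of_lt (fst_nonneg u) ht.1, ht.2.le.trans (fst_le v)⟩
    refine ⟨u.1.1, v.1.1, ray, huv, ray_cont.mono hsub, ?_, ?_⟩
    · intro t ht
      obtain ⟨p, hp, hpt⟩ := hI ⟨ht.1.le, ht.2.le⟩
      simp only at hpt
      have hp0 : 0 < p.1.1 := by rw [hpt]; exact (hsub ht).1
      have e : ray t = p := by rw [← hpt]; exact ray_fst hp0
      rw [e]
      refine ⟨hp, sep_lemma (fun p : X => p.1.1) c1 hu hv ?_ ?_ ?_⟩
      · simp only [hpt]; exact ht.1
      · simp only [hpt]; exact ht.2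
      · intro q hq hqp
        exact eq_of_fst hp0 hqp
    · intro p hp
      have a1 : u.1.1 ≤ p.1.1 := humin hp
      have a2 : p.1.1 ≤ v.1.1 := hvmax hp
      rcases (fst_nonneg p).eq_or_lt with h0 | h0
      · have hu0 : u.1.1 = 0 := le_antisymm (h0 ▸ a1) (fst_nonneg u)
        rw [Metric.mem_closure_iff]
        intro ε hε
        obtain ⟨x, hx, hxy⟩ := exists_mem_Ioo_of_y (snd_mem p) (lt_min hε (hu0 ▸ huv))
        have hx' : x ∈ Ioo u.1.1 v.1.1 := ⟨hu0 ▸ hx.1, hx.2.trans_le (min_le_right _ _)⟩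
        refine ⟨ray x, ⟨x, hx', rfl⟩, ?_⟩
        rw [Subtype.dist_eq, ray_val (hsub hx').1 (hsub hx').2, Prod.dist_eq, hxy, ← h0]
        simp only [dist_self, Real.dist_eq, zero_sub, abs_neg, abs_of_pos hx.1]
        exact max_lt (hx.2.trans_le (min_le_left _ _)) hε
      · rw [← ray_fst h0]
        have hcw : ContinuousWithinAt ray (Ioo u.1.1 v.1.1) p.1.1 :=
          (ray_cont _ ⟨h0, fst_le p⟩).mono hsub
        refine hcw.mem_closure_image ?_
        rw [closure_Ioo huv.ne]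
        exact ⟨a1, a2⟩

instance : ConnectedSpace X := by
  have h : closure (ray '' Ioc 0 1) = univ := by
    refine eq_univ_of_forall fun p => ?_
    rcases (fst_nonneg p).eq_or_lt with h0 | h0
    · rw [Metric.mem_closure_iff]
      intro ε hε
      obtain ⟨x, hx, hxy⟩ := exists_mem_Ioo_of_y (snd_mem p) (lt_min hε zero_lt_one)
      have hx' : x ∈ Ioc (0:ℝ) 1 := ⟨hx.1, hx.2.le.trans (min_le_right _ _)⟩
      refine ⟨ray x, ⟨x, hx', rfl⟩, ?_⟩
      rw [Subtype.dist_eq, ray_val hx'.1 hx'.2, Prod.dist_eq, hxy, ← h0]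
      simp only [dist_self, Real.dist_eq, zero_sub, abs_neg, abs_of_pos hx.1]
      exact max_lt (hx.2.trans_le (min_le_left _ _)) hε
    · exact subset_closure ⟨p.1.1, ⟨h0, fst_le p⟩, ray_fst h0⟩
  rw [connectedSpace_iff_univ, ← h]
  exact ((isConnected_Ioc zero_lt_one).image _ ray_cont).closure

private lemma exists_unitInterval_gt {t₀ : unitInterval} (ht₀ : t₀ < 1) {δ : ℝ} (hδ : 0 < δ) :
    ∃ t₁, t₀ < t₁ ∧ dist t₀ t₁ < δ := by
  let s₀ := (t₀ : ℝ)
  let s₁ := min (s₀ + δ / 2) 1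
  have h_s₀_delta_pos : 0 ≤ s₀ + δ / 2 := add_nonneg t₀.2.1 (by positivity)
  have hs₁ : 0 ≤ s₁ := le_min h_s₀_delta_pos zero_le_one
  have hs₁' : s₁ ≤ 1 := min_le_right ..
  refine ⟨⟨s₁, hs₁, hs₁'⟩, lt_min ((lt_add_iff_pos_right _).mpr (half_pos hδ)) ht₀, ?_⟩
  have h_le : s₁ ≤ s₀ + δ / 2 := min_le_left _ _
  have h_ge : s₀ ≤ s₁ := le_min (by linarith) t₀.2.2
  rw [Subtype.dist_eq, dist_comm, Real.dist_eq, abs_of_nonneg (by linarith)]
  linarith

lemma no_path (p : unitInterval → X) (hp : Continuous p) (h0 : (p 0).1.1 = 0)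
    (h1 : (p 1).1.1 = 1) : False := by
  have xc : Continuous fun t ↦ (p t).1.1 := continuous_fst.comp (continuous_subtype_val.comp hp)
  have yc : Continuous fun t ↦ (p t).1.2 := continuous_snd.comp (continuous_subtype_val.comp hp)
  let t₀ : unitInterval := sSup {t | (p t).1.1 = 0}
  have hcl : IsClosed {t | (p t).1.1 = 0} := isClosed_eq xc continuous_const
  have h_pt₀_x : (p t₀).1.1 = 0 := by
    have := hcl.sSup_mem (s := {t | (p t).1.1 = 0}) ⟨0, h0⟩
    exact this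
  obtain ⟨δ, hδ, ht⟩ : ∃ δ, 0 < δ ∧ ∀ t, dist t t₀ < δ → dist (p t).1.2 (p t₀).1.2 < 1 :=
    Metric.eventually_nhds_iff.mp <| Metric.tendsto_nhds.mp (yc.continuousAt (x := t₀)) _ one_pos
  obtain ⟨t₁, ht₁⟩ : ∃ t₁, t₀ < t₁ ∧ dist t₀ t₁ < δ := by
    refine exists_unitInterval_gt (lt_of_le_of_ne (unitInterval.le_one t₀) fun ht₀' ↦ ?_) hδ
    rw [ht₀'] at h_pt₀_x
    linarith
  have ha : 0 < (p t₁).1.1 := by
    rcases (fst_nonneg (p t₁)).eq_or_lt with h | h
    · exact ((show t₁ ≤ t₀ from le_sSup h.symm).not_gt ht₁.1).elim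
    · exact h
  have hI : Icc 0 (p t₁).1.1 ⊆ (fun t ↦ (p t).1.1) '' Icc t₀ t₁ :=
    (isPreconnected_Icc.image _ <| xc.continuousOn).Icc_subset
      ⟨t₀, ⟨le_rfl, ht₁.1.le⟩, h_pt₀_x⟩ ⟨t₁, ⟨ht₁.1.le, le_rfl⟩, rfl⟩
  have exists_close {y : ℝ} (hy : y ∈ Icc (-1) 1) : ∃ t, dist t t₀ < δ ∧ (p t).1.2 = y := by
    obtain ⟨x, hx, hx'⟩ := exists_mem_Ioo_of_y hy ha
    obtain ⟨t, ht⟩ : ∃ t ∈ Icc t₀ t₁, (p t).1.1 = x := hI ⟨hx.1.le, hx.2.le⟩
    have hp : (p t).1.2 = Real.sin (p t).1.1⁻¹ := snd_eq (ht.2 ▸ hx.1)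
    refine ⟨t, ?_, by rw [← hx', hp, ht.2]⟩
    calc
    dist t t₀ ≤ dist t₁ t₀ := Real.dist_right_le_of_mem_uIcc (Icc_subset_uIcc' ht.1)
    _ = dist t₀ t₁ := by rw [dist_comm]
    _ < δ := ht₁.2
  obtain ⟨x₁, hx₁, h_pathx₁⟩ : ∃ x₁, dist x₁ t₀ < δ ∧ (p x₁).1.2 = 1 := exists_close (by simp)
  obtain ⟨x₂, hx₂, h_pathx₂⟩ : ∃ x₂, dist x₂ t₀ < δ ∧ (p x₂).1.2 = -1 := exists_close (by simp)
  have a1 := ht _ hx₁
  have a2 := ht _ hx₂
  rw [h_pathx₁, Real.dist_eq, abs_lt] at a1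
  rw [h_pathx₂, Real.dist_eq, abs_lt] at a2
  linarith [a1.2, a2.1]

/-- Sierpinski's theorem for the line. -/
lemma sierp {I : Type} [Countable I] (ι : ℝ → I) (hι : ∀ i, IsClosed (ι ⁻¹' {i})) (x y : ℝ) :
    ι x = ι y := by
  classical
  let U : Set ℝ := {z | ∀ᶠ w in 𝓝 z, ι w = ι z}
  have hU : IsOpen U := by
    rw [isOpen_iff_mem_nhds]
    intro z hz
    filter_upwards [eventually_eventually_nhds.2 hz, hz] with w hw hw'
    filter_upwards [hw] with v hv
    rw [hv, hw']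
  have key : ∀ (J : Set ℝ), IsPreconnected J → ∀ j, (∀ z ∈ J, ι z = j → z ∈ U) →
      ∀ y ∈ J, ι y = j → ∀ x ∈ J, ι x = j := by
    intro J hJ j hj y hy hyj x hx
    have h1 : J ⊆ interior (ι ⁻¹' {j}) ∪ (ι ⁻¹' {j})ᶜ := by
      intro z hz
      by_cases e : ι z = j
      · left
        rw [mem_interior_iff_mem_nhds]
        filter_upwards [hj z hz e] with w hw
        exact hw.trans e
      · exact Or.inr e
    have h2 := hJ.subset_or_subset isOpen_interior (hι j).isOpen_compl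
      (Set.disjoint_left.2 fun z hz hz' => hz' (interior_subset hz)) h1
    rcases h2 with h2 | h2
    · have := interior_subset (h2 hx)
      exact this
    · exact absurd hyj (h2 hy)
  by_cases hB : (Uᶜ).Nonempty
  · exfalso
    haveI : Nonempty ↥(Uᶜ) := hB.to_subtype
    haveI : CompleteSpace ↥(Uᶜ) := hU.isClosed_compl.completeSpace_coe
    obtain ⟨i, z, hz⟩ := nonempty_interior_of_iUnion_of_closed
      (f := fun i => (Subtype.val ⁻¹' (ι ⁻¹' {i}) : Set ↥(Uᶜ)))
      (fun i => (hι i).preimage continuous_subtype_val)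
      (eq_univ_of_forall fun z => mem_iUnion.2 ⟨ι z.1, rfl⟩)
    rw [mem_interior_iff_mem_nhds, Metric.mem_nhds_iff] at hz
    obtain ⟨ε, hε, hz⟩ := hz
    have hzi : ι z.1 = i := hz (Metric.mem_ball_self hε)
    apply z.2
    filter_upwards [Metric.ball_mem_nhds z.1 hε] with w hw
    by_contra hne
    refine hne (key (Metric.ball z.1 ε) (convex_ball _ _).isPreconnected (ι w) ?_ w hw rfl z.1
      (Metric.mem_ball_self hε)).symm
    intro v hv hvw
    by_contra hvU
    have : ι v = i := hz (a := ⟨v, hvU⟩) hv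
    exact hne (hvw.symm.trans (this.trans hzi.symm))
  · have hall : ∀ z, z ∈ U := fun z => by
      by_contra h
      exact hB ⟨z, h⟩
    exact key univ isPreconnected_univ (ι y) (fun z _ _ => hall z) y trivial rfl x trivial

lemma condS (C : Set X) (hC : IsCompact C) (hc : IsConnected C) (hn : C.Nontrivial) :
    CondS ↥C := by
  rintro ⟨I, hI, F, hF, hd, hL⟩
  rcases structure_sub C hC hc with h | ⟨a, b, γ, hab, hγ, h1, h2⟩
  · exact hn.not_subsingleton h
  haveI : PreconnectedSpace ↥C := Subtype.preconnectedSpace hc.isPreconnected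
  have hmem : ∀ t (ht : t ∈ Ioo a b), ∃ i, (⟨γ t, (h1 t ht).1⟩ : ↥C) ∈ F i := by
    intro t ht
    rw [← mem_iUnion, ← hL]
    refine ⟨univ, isOpen_univ, mem_univ _, ?_⟩
    rw [isPreconnected_univ.connectedComponentIn (mem_univ _)]
    intro hp
    apply (h1 t ht).2
    have := hp.image _ continuous_subtype_val.continuousOn
    convert this using 1
    ext q
    constructor
    · rintro ⟨hq, hq'⟩
      exact ⟨⟨q, hq⟩, ⟨mem_univ _, fun e => hq' (congrArg Subtype.val e)⟩, rfl⟩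
    · rintro ⟨q, hq, rfl⟩
      exact ⟨q.2, fun e => hq.2 (Subtype.ext e)⟩
  choose ι hι using hmem
  have huniq : ∀ t (ht : t ∈ Ioo a b) i, (⟨γ t, (h1 t ht).1⟩ : ↥C) ∈ F i → ι t ht = i := by
    intro t ht i hi
    by_contra hne
    exact Set.disjoint_left.1 (hd _ _ hne) (hι t ht) hi
  have hconst : ∀ u (hu : u ∈ Ioo a b) v (hv : v ∈ Ioo a b), u ≤ v → ι u hu = ι v hv := by
    intro u hu v hv huv
    have hsub : ∀ s : ℝ, (projIcc u v huv s : ℝ) ∈ Ioo a b := fun s =>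
      ⟨hu.1.trans_le (projIcc u v huv s).2.1, (projIcc u v huv s).2.2.trans_lt hv.2⟩
    have hcont : Continuous fun s : ℝ => (⟨γ (projIcc u v huv s), (h1 _ (hsub s)).1⟩ : ↥C) := by
      refine Continuous.subtype_mk ?_ _
      exact hγ.comp_continuous (continuous_subtype_val.comp continuous_projIcc) hsub
    have := sierp (fun s => ι _ (hsub s)) (fun i => by
      convert (hF i).1.preimage hcont using 1
      ext s
      constructor
      · intro e
        have e' : ι _ (hsub s) = i := e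
        rw [← e']
        exact hι _ (hsub s)
      · intro e
        exact huniq _ (hsub s) i e) u v
    simpa [projIcc_left, projIcc_right] using this
  have hm : (a + b) / 2 ∈ Ioo a b := ⟨by linarith, by linarith⟩
  apply (hF (ι _ hm)).2
  refine eq_univ_of_forall fun q => ?_
  have hcl : IsClosed (Subtype.val '' F (ι _ hm)) :=
    hC.isClosed.isClosedEmbedding_subtypeVal.isClosedMap _ (hF _).1
  have hsub : γ '' Ioo a b ⊆ Subtype.val '' F (ι _ hm) := by
    rintro _ ⟨t, ht, rfl⟩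
    refine ⟨⟨γ t, (h1 t ht).1⟩, ?_, rfl⟩
    have : ι t ht = ι _ hm := by
      rcases le_total t ((a + b) / 2) with h | h
      · exact hconst _ ht _ hm h
      · exact (hconst _ hm _ ht h).symm
    rw [← this]
    exact hι t ht
  obtain ⟨q', hq', e⟩ := closure_minimal hsub hcl (h2 q.2)
  rw [← Subtype.ext e]
  exact hq'

end

/-- A continuum all of whose nondegenerate subcontinua satisfy (S), with a connected subset
containing two distinct points not joined by an arc inside it. -/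
theorem result :
    ∃ (X : Type) (_ : MetricSpace X), CompactSpace X ∧ ConnectedSpace X ∧
      (∀ C : Set X, IsCompact C → IsConnected C → C.Nontrivial → CondS ↥C) ∧
      ∃ A : Set X, IsConnected A ∧ ∃ x ∈ A, ∃ y ∈ A, x ≠ y ∧
        ¬ ∃ f : unitInterval → X, Continuous f ∧ Function.Injective f ∧
          f 0 = x ∧ f 1 = y ∧ Set.range f ⊆ A := by
  have e0 : (bar 0).1.1 = 0 := rfl
  have e1 : (ray 1).1.1 = 1 := by rw [ray_val zero_lt_one le_rfl]
  refine ⟨X, inferInstance, inferInstance, inferInstance, condS, Set.univ, isConnected_univ,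
    bar 0, Set.mem_univ _, ray 1, Set.mem_univ _,
    fun e => by rw [e, e1] at e0; exact one_ne_zero e0, ?_⟩
  rintro ⟨f, hf, -, h0, h1, -⟩
  exact no_path f hf (by rw [h0, e0]) (by rw [h1, e1])

end Pool.Agent.Results.MP_a3a891_gt.Counter
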